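import Mathlib

set_option autoImplicit false

namespace Pool.Agent.Results.MP_169bcc_al.SolubleLength

/-- counting: if every element of `D` is conjugate into `B`, then `|D : B|` is at most the number of
conjugates of `B` -/
theorem card_le {A : Type*} [Group A] [Finite A] (B D : Subgroup A)
    (hcov : ∀ d ∈ D, ∃ a : A, a * d * a⁻¹ ∈ B) :
    Nat.card D ≤ (Subgroup.normalizer (B : Set A)).index * Nat.card B := by
  classical
  let f : (A ⧸ (Subgroup.normalizer (B : Set A))) × B → A := fun p => p.1.out * p.2.1 * (p.1.out)⁻¹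
  have hsub : (D : Set A) ⊆ Set.range f := by
    intro d hd
    obtain ⟨a, ha⟩ := hcov d hd
    let q : A ⧸ (Subgroup.normalizer (B : Set A)) := (a⁻¹ : A)
    have hq : (q.out : A ⧸ (Subgroup.normalizer (B : Set A))) = (a⁻¹ : A) := Quotient.out_eq' q
    have hn : (q.out)⁻¹ * a⁻¹ ∈ (Subgroup.normalizer (B : Set A)) := QuotientGroup.eq.mp hq
    have hb : ((q.out)⁻¹ * a⁻¹) * (a * d * a⁻¹) * ((q.out)⁻¹ * a⁻¹)⁻¹ ∈ B :=
      (Subgroup.mem_normalizer_iff.mp hn _).mp ha
    refine ⟨(q, ⟨_, hb⟩), ?_⟩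
    simp only [f]
    group
  calc Nat.card D = Nat.card (D : Set A) := rfl
    _ ≤ Nat.card (Set.range f) := Nat.card_mono (Set.toFinite _) hsub
    _ ≤ Nat.card ((A ⧸ (Subgroup.normalizer (B : Set A))) × B) := Finite.card_range_le f
    _ = (Subgroup.normalizer (B : Set A)).index * Nat.card B := by rw [Nat.card_prod, Subgroup.index]

theorem card_mul_relIndex {A : Type*} [Group A] {H K : Subgroup A} (h : H ≤ K) :
    Nat.card H * H.relIndex K = Nat.card K := by
  have := Subgroup.relIndex_mul_relIndex ⊥ H K bot_le h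
  rwa [Subgroup.relIndex_bot_left, Subgroup.relIndex_bot_left] at this

/-- `|U D : U| = |D : U ∩ D|` -/
theorem relIndex_sup {A : Type*} [Group A] [Finite A] (U D : Subgroup A) [D.Normal] :
    U.relIndex (U ⊔ D) = (U ⊓ D).relIndex D := by
  have h1 : Nat.card (U ⊔ D : Subgroup A) = Nat.card U * U.relIndex (U ⊔ D) :=
    (card_mul_relIndex le_sup_left).symm
  have h2 : Nat.card (U ⊔ D : Subgroup A) = Nat.card D * D.relIndex (U ⊔ D) :=
    (card_mul_relIndex le_sup_right).symm
  have h3 : Nat.card U = Nat.card (U ⊓ D : Subgroup A) * (U ⊓ D).relIndex U :=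
    (card_mul_relIndex inf_le_left).symm
  have h4 : Nat.card D = Nat.card (U ⊓ D : Subgroup A) * (U ⊓ D).relIndex D :=
    (card_mul_relIndex inf_le_right).symm
  have h5 : D.relIndex (U ⊔ D) = D.relIndex U := Subgroup.relIndex_sup_right U D
  have h6 : (U ⊓ D).relIndex U = D.relIndex U := Subgroup.inf_relIndex_left U D
  have h7 : Nat.card (U ⊓ D : Subgroup A) ≠ 0 := Nat.card_pos.ne'
  have h8 : D.relIndex U ≠ 0 := by
    rw [← h6]
    intro h0
    rw [h0, mul_zero] at h3
    exact Nat.card_pos.ne' h3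
  have h9 : Nat.card (U ⊓ D : Subgroup A) * D.relIndex U * U.relIndex (U ⊔ D) =
      Nat.card (U ⊓ D : Subgroup A) * D.relIndex U * (U ⊓ D).relIndex D := by
    calc Nat.card (U ⊓ D : Subgroup A) * D.relIndex U * U.relIndex (U ⊔ D)
        = Nat.card U * U.relIndex (U ⊔ D) := by rw [← h6, ← h3]
      _ = Nat.card D * D.relIndex (U ⊔ D) := by rw [← h1, h2]
      _ = Nat.card (U ⊓ D : Subgroup A) * (U ⊓ D).relIndex D * D.relIndex U := by rw [h5, ← h4]
      _ = _ := by ring
  exact Nat.eq_of_mul_eq_mul_left (Nat.pos_of_ne_zero (mul_ne_zero h7 h8)) h9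

/-- one step along the derived series -/
theorem step {A : Type*} [Group A] [Finite A] (H U D : Subgroup A) [H.Normal] [D.Normal]
    (hU : U ≤ H) (hD : D ≤ H) (hcov : ∀ h ∈ H, ∃ a : A, a * h * a⁻¹ ∈ U) :
    (U ⊔ ⁅D, D⁆).relIndex H ≤ H.index * ((U ⊔ D).relIndex H) ^ 2 := by
  set E := ⁅D, D⁆ with hE
  have hEn : E.Normal := Subgroup.commutator_normal D D
  have hED : E ≤ D := Subgroup.commutator_le_left D D
  set U1 := U ⊔ E with hU1
  have hsup : U1 ⊔ D = U ⊔ D := by
    rw [hU1, sup_assoc, sup_eq_right.mpr hED]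
  have hEB : E ≤ U1 ⊓ D := le_inf le_sup_right hED
  have hnorm : U ⊔ D ≤ (Subgroup.normalizer ((U1 ⊓ D : Subgroup A) : Set A)) := by
    rw [← hsup]
    refine sup_le ?_ ?_
    · intro u hu
      rw [Subgroup.mem_normalizer_iff]
      intro x
      constructor
      · rintro ⟨hx1, hx2⟩
        exact ⟨U1.mul_mem (U1.mul_mem hu hx1) (U1.inv_mem hu),
          (inferInstance : D.Normal).conj_mem x hx2 u⟩
      · rintro ⟨hx1, hx2⟩
        refine ⟨?_, ?_⟩
        · have := U1.mul_mem (U1.mul_mem (U1.inv_mem hu) hx1) hu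
          have h2 : u⁻¹ * (u * x * u⁻¹) * u = x := by group
          rwa [h2] at this
        · have := (inferInstance : D.Normal).conj_mem _ hx2 u⁻¹
          have h2 : u⁻¹ * (u * x * u⁻¹) * u⁻¹⁻¹ = x := by group
          rwa [h2] at this
    · intro d hd
      rw [Subgroup.mem_normalizer_iff]
      have key : ∀ d ∈ D, ∀ x ∈ U1 ⊓ D, d * x * d⁻¹ ∈ U1 ⊓ D := by
        intro d hd x hx
        have h1 : d * x * d⁻¹ * x⁻¹ ∈ U1 ⊓ D := hEB (Subgroup.commutator_mem_commutator hd hx.2)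
        have h2 := (U1 ⊓ D).mul_mem h1 hx
        have h3 : d * x * d⁻¹ * x⁻¹ * x = d * x * d⁻¹ := by group
        rwa [h3] at h2
      intro x
      constructor
      · intro hx
        exact key d hd x hx
      · intro hx
        have h4 := key d⁻¹ (D.inv_mem hd) _ hx
        have h2 : d⁻¹ * (d * x * d⁻¹) * d⁻¹⁻¹ = x := by group
        rwa [h2] at h4
  have hc : Nat.card D ≤ (Subgroup.normalizer ((U1 ⊓ D : Subgroup A) : Set A)).index * Nat.card (U1 ⊓ D : Subgroup A) := by
    refine card_le _ _ fun d hd => ?_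
    obtain ⟨a, ha⟩ := hcov d (hD hd)
    exact ⟨a, (le_sup_left : U ≤ U1) ha, (inferInstance : D.Normal).conj_mem d hd a⟩
  have hr : (U1 ⊓ D).relIndex D ≤ (Subgroup.normalizer ((U1 ⊓ D : Subgroup A) : Set A)).index := by
    have h4 : Nat.card D = Nat.card (U1 ⊓ D : Subgroup A) * (U1 ⊓ D).relIndex D :=
      (card_mul_relIndex inf_le_right).symm
    rw [h4, mul_comm] at hc
    exact Nat.le_of_mul_le_mul_right hc Nat.card_pos
  have hi : (Subgroup.normalizer ((U1 ⊓ D : Subgroup A) : Set A)).index ≤ (U ⊔ D).index := by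
    exact Nat.le_of_dvd (Nat.pos_of_ne_zero Subgroup.index_ne_zero_of_finite)
      (Subgroup.index_dvd_of_le hnorm)
  have hUD : U ⊔ D ≤ H := sup_le hU hD
  have hm : (U ⊔ D).relIndex H * H.index = (U ⊔ D).index := Subgroup.relIndex_mul_index hUD
  have hle : U1 ≤ U ⊔ D := by rw [← hsup]; exact le_sup_left
  have hmm : U1.relIndex (U ⊔ D) * (U ⊔ D).relIndex H = U1.relIndex H :=
    Subgroup.relIndex_mul_relIndex U1 (U ⊔ D) H hle hUD
  have hrs : U1.relIndex (U ⊔ D) = (U1 ⊓ D).relIndex D := by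
    rw [← hsup]; exact relIndex_sup U1 D
  rw [← hmm, hrs]
  calc (U1 ⊓ D).relIndex D * (U ⊔ D).relIndex H
      ≤ (U ⊔ D).index * (U ⊔ D).relIndex H := Nat.mul_le_mul_right _ (hr.trans hi)
    _ = H.index * ((U ⊔ D).relIndex H) ^ 2 := by rw [← hm]; ring

/-- the derived series of `N`, inside `A` -/
def ser {A : Type*} [Group A] (N : Subgroup A) : ℕ → Subgroup A
  | 0 => N
  | k + 1 => ⁅ser N k, ser N k⁆

theorem ser_normal {A : Type*} [Group A] (N : Subgroup A) (hN : N.Normal) (k : ℕ) :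
    (ser N k).Normal := by
  induction k with
  | zero => exact hN
  | succ k ih => exact Subgroup.commutator_normal _ _

theorem ser_le {A : Type*} [Group A] (N : Subgroup A) (k : ℕ) : ser N k ≤ N := by
  induction k with
  | zero => exact le_rfl
  | succ k ih =>
    refine le_trans ?_ ih
    rw [ser, Subgroup.commutator_le]
    intro a ha b hb
    exact (ser N k).mul_mem ((ser N k).mul_mem ((ser N k).mul_mem ha hb)
      ((ser N k).inv_mem ha)) ((ser N k).inv_mem hb)

theorem ser_eq {A : Type*} [Group A] (N : Subgroup A) (k : ℕ) :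
    ser N k = (derivedSeries N k).map N.subtype := by
  induction k with
  | zero =>
    rw [derivedSeries_zero, ← MonoidHom.range_eq_map, Subgroup.range_subtype, ser]
  | succ k ih => rw [ser, ih, derivedSeries_succ, Subgroup.map_commutator]

theorem bound {A : Type*} [Group A] [Finite A] (H U N : Subgroup A) (hH : H.Normal)
    (hN : N.Normal) (hU : U ≤ H) (hNH : N ≤ H)
    (hcov : ∀ h ∈ H, ∃ a : A, a * h * a⁻¹ ∈ U) (k : ℕ) :
    (U ⊔ ser N k).relIndex H ≤ H.index ^ (2 ^ k - 1) * ((U ⊔ N).relIndex H) ^ (2 ^ k) := by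
  induction k with
  | zero => simp [ser]
  | succ k ih =>
    have := ser_normal N hN k
    have h1 := step H U (ser N k) hU ((ser_le N k).trans hNH) hcov
    refine h1.trans ?_
    calc H.index * ((U ⊔ ser N k).relIndex H) ^ 2
        ≤ H.index * (H.index ^ (2 ^ k - 1) * ((U ⊔ N).relIndex H) ^ (2 ^ k)) ^ 2 :=
          Nat.mul_le_mul_left _ (Nat.pow_le_pow_left ih 2)
      _ = H.index ^ (2 ^ (k + 1) - 1) * ((U ⊔ N).relIndex H) ^ (2 ^ (k + 1)) := by
          have h2 : 2 ^ (k + 1) - 1 = 1 + (2 ^ k - 1) * 2 := by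
            have : 1 ≤ 2 ^ k := Nat.one_le_two_pow
            rw [pow_succ]; omega
          rw [h2, pow_add, pow_one, pow_mul, mul_pow, ← pow_mul _ (2 ^ k) 2, ← pow_succ 2 k,
            mul_assoc]

theorem result : ∀ (k : ℕ) (A : Type) [Group A] [Finite A] (H U N : Subgroup A),
    H.Normal → N.Normal → U ≤ H → N ≤ H → derivedSeries N k = ⊥ →
    (∀ h ∈ H, ∃ a : A, a * h * a⁻¹ ∈ U) →
    (U.subgroupOf H).index ≤
      H.index ^ (2 ^ k - 1) * ((U ⊔ N).subgroupOf H).index ^ (2 ^ k) := by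
  intro k A _ _ H U N hH hN hU hNH hsol hcov
  have h1 := bound H U N hH hN hU hNH hcov k
  rw [ser_eq, hsol, Subgroup.map_bot, sup_bot_eq] at h1
  exact h1

end Pool.Agent.Results.MP_169bcc_al.SolubleLength
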